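import Mathlib

/-!
# Lower bounds for holomorphic functions of two variables whose zeros lie on the axes

`min_mod`: the minimum principle for a function with a zero of order at most `n` at the origin and no other
zeros.  `lower_smooth`: if `a (s, t) ≠ 0` for `s ≠ 0` then `c ‖s‖ ^ k ≤ ‖a (s, t)‖` on the closed
bidisc.  `lower_node`: if `a (s, t) ≠ 0` for `s ≠ 0`, `t ≠ 0` then
`c (‖s‖ ‖t‖) ^ k ≤ ‖a (s, t)‖`.  `upper_smooth`, `upper_node`: upper bounds for functions vanishing on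
the axes.
-/

set_option autoImplicit false

open Filter Topology Metric

noncomputable section

namespace Pool.Agent.H62.BP

/-- The minimum principle. -/
theorem min_principle {f : ℂ → ℂ} {z₀ : ℂ} {r c : ℝ} (hr : 0 < r) (hc : 0 < c)
    (hf : ∀ z, ‖z - z₀‖ ≤ r → AnalyticAt ℂ f z) (h0 : ∀ z, ‖z - z₀‖ ≤ r → f z ≠ 0)
    (h1 : ∀ z, ‖z - z₀‖ = r → c ≤ ‖f z‖) {z : ℂ} (hz : ‖z - z₀‖ ≤ r) : c ≤ ‖f z‖ := by
  have hcl : closure (ball z₀ r) = closedBall z₀ r := closure_ball z₀ hr.ne'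
  have hfr : frontier (ball z₀ r) = sphere z₀ r := frontier_ball z₀ hr.ne'
  have hmem : ∀ w, w ∈ closedBall z₀ r ↔ ‖w - z₀‖ ≤ r := fun w => by
    rw [mem_closedBall, dist_eq_norm]
  have hd : DiffContOnCl ℂ (fun w => (f w)⁻¹) (ball z₀ r) := by
    apply DifferentiableOn.diffContOnCl
    rw [hcl]
    intro w hw
    exact ((hf w ((hmem w).mp hw)).inv (h0 w ((hmem w).mp hw))).differentiableAt.differentiableWithinAt
  have h2 := Complex.norm_le_of_forall_mem_frontier_norm_le (C := c⁻¹) isBounded_ball hd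
    (by
      intro w hw
      rw [hfr, mem_sphere, dist_eq_norm] at hw
      rw [norm_inv]
      exact inv_anti₀ hc (h1 w hw)) (z := z) (by rw [hcl, hmem]; exact hz)
  rw [norm_inv] at h2
  exact (inv_le_inv₀ (norm_pos_iff.mpr (h0 z hz)) hc).mp h2

/-- The minimum principle for functions with a zero at the origin. -/
theorem min_mod {f : ℂ → ℂ} {c : ℝ} (hc : 0 < c) {n : ℕ}
    (hf : ∀ z, ‖z‖ ≤ 1 → AnalyticAt ℂ f z) (h0 : ∀ z, ‖z‖ ≤ 1 → z ≠ 0 → f z ≠ 0)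
    (h1 : ∀ z, ‖z‖ = 1 → c ≤ ‖f z‖) (hn : analyticOrderAt f 0 ≤ n) {z : ℂ} (hz : ‖z‖ ≤ 1) :
    c * ‖z‖ ^ n ≤ ‖f z‖ := by
  classical
  have hfa := hf 0 (by rw [norm_zero]; exact zero_le_one)
  obtain ⟨m, hm⟩ : ∃ m : ℕ, analyticOrderAt f 0 = m :=
    ENat.ne_top_iff_exists.mp (ne_top_of_le_ne_top (ENat.natCast_ne_top n) hn) |>.imp fun _ h => h.symm
  have hmn : m ≤ n := by
    rw [hm] at hn
    exact_mod_cast hn
  obtain ⟨g, hg, hg0, hfg⟩ := hfa.analyticOrderAt_eq_natCast.mp hm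
  obtain ⟨G, hG⟩ : ∃ G : ℂ → ℂ, ∀ z, G z = if z = 0 then g 0 else f z / z ^ m := ⟨_, fun z => rfl⟩
  have hG0 : G =ᶠ[𝓝 0] g := by
    filter_upwards [hfg] with w hw
    rw [hG]
    split_ifs with h2
    · rw [h2]
    · rw [hw, sub_zero, smul_eq_mul, mul_div_cancel_left₀ _ (pow_ne_zero m h2)]
  have hGa : ∀ w, ‖w‖ ≤ 1 → AnalyticAt ℂ G w := by
    intro w hw
    by_cases h2 : w = 0
    · rw [h2]
      exact hg.congr hG0.symm
    · have h3 : AnalyticAt ℂ (fun z => f z / z ^ m) w :=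
        (hf w hw).div (analyticAt_id.pow m) (pow_ne_zero m h2)
      refine h3.congr ?_
      filter_upwards [isOpen_compl_singleton.mem_nhds (show w ∈ ({0}ᶜ : Set ℂ) from h2)] with x hx
      have hx0 : x ≠ 0 := hx
      rw [hG, if_neg hx0]
  have hGn : ∀ w, ‖w‖ ≤ 1 → G w ≠ 0 := by
    intro w hw
    rw [hG]
    split_ifs with h2
    · exact hg0
    · exact div_ne_zero (h0 w hw h2) (pow_ne_zero m h2)
  have hG1 : ∀ w, ‖w‖ = 1 → c ≤ ‖G w‖ := by
    intro w hw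
    have h2 : w ≠ 0 := by
      rintro rfl
      rw [norm_zero] at hw
      exact zero_ne_one hw
    rw [hG, if_neg h2, norm_div, norm_pow, hw, one_pow, div_one]
    exact h1 w hw
  have h2 : c ≤ ‖G z‖ := min_principle (z₀ := 0) one_pos hc (by simpa using hGa)
    (by simpa using hGn) (by simpa using hG1) (by simpa using hz)
  by_cases hz0 : z = 0
  · subst hz0
    rcases Nat.eq_zero_or_pos n with h3 | h3
    · have h4 : m = 0 := by omega
      have h5 : f 0 = G 0 := by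
        have h6 := hfg.self_of_nhds
        rw [hG, if_pos rfl, h6, h4, pow_zero, one_smul]
      rw [h3, pow_zero, mul_one, h5]
      exact h2
    · rw [norm_zero, zero_pow h3.ne', mul_zero]
      exact norm_nonneg _
  · have h3 : f z = z ^ m * G z := by
      rw [hG, if_neg hz0, mul_div_cancel₀ _ (pow_ne_zero m hz0)]
    rw [h3, norm_mul, norm_pow, mul_comm c]
    refine mul_le_mul ?_ h2 hc.le (by positivity)
    exact pow_le_pow_of_le_one (norm_nonneg z) hz hmn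

/-! ### Two variables -/

/-- The derivative in the direction of the first variable. -/
def Ds (a : ℂ × ℂ → ℂ) (p : ℂ × ℂ) : ℂ := fderiv ℂ a p (1, 0)

theorem Ds_analytic {a : ℂ × ℂ → ℂ} {p : ℂ × ℂ} (h : AnalyticAt ℂ a p) :
    AnalyticAt ℂ (Ds a) p :=
  AnalyticAt.fun_comp (g := fun L : ℂ × ℂ →L[ℂ] ℂ => L (1, 0)) (f := fderiv ℂ a)
    ((ContinuousLinearMap.apply ℂ ℂ ((1, 0) : ℂ × ℂ)).analyticAt _) h.fderiv

theorem deriv_slice {a : ℂ × ℂ → ℂ} {s t : ℂ} (h : AnalyticAt ℂ a (s, t)) :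
    deriv (fun s' => a (s', t)) s = Ds a (s, t) := by
  have h1 : HasDerivAt (fun s' : ℂ => (s', t)) (1, 0) s :=
    (hasDerivAt_id s).prodMk (hasDerivAt_const s t)
  exact (h.differentiableAt.hasFDerivAt.comp_hasDerivAt s h1).deriv

theorem iter_analytic {a : ℂ × ℂ → ℂ} {p : ℂ × ℂ} (h : AnalyticAt ℂ a p) (i : ℕ) :
    AnalyticAt ℂ (Ds^[i] a) p := by
  induction i with
  | zero => exact h
  | succ i ih =>
    rw [Function.iterate_succ_apply']
    exact Ds_analytic ih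

theorem slice_analytic {a : ℂ × ℂ → ℂ} {s t : ℂ} (h : AnalyticAt ℂ a (s, t)) :
    AnalyticAt ℂ (fun s' => a (s', t)) s :=
  AnalyticAt.fun_comp (g := a) (f := fun s' => (s', t)) h (analyticAt_id.prod analyticAt_const)

theorem iter_slice {a : ℂ × ℂ → ℂ} (i : ℕ) : ∀ {s t : ℂ}, AnalyticAt ℂ a (s, t) →
    iteratedDeriv i (fun s' => a (s', t)) s = (Ds^[i] a) (s, t) := by
  induction i with
  | zero =>
    intro s t _
    rw [iteratedDeriv_zero, Function.iterate_zero, id]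
  | succ i ih =>
    intro s t h
    have h1 : ∀ᶠ s' in 𝓝 s, AnalyticAt ℂ a (s', t) :=
      (Continuous.prodMk continuous_id continuous_const).continuousAt.eventually
        h.eventually_analyticAt
    have h2 : iteratedDeriv i (fun s' => a (s', t)) =ᶠ[𝓝 s] fun s' => (Ds^[i] a) (s', t) := by
      filter_upwards [h1] with s' hs'
      exact ih hs'
    rw [iteratedDeriv_succ, h2.deriv_eq, deriv_slice (iter_analytic h i),
      Function.iterate_succ_apply']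

theorem order_le_of_ne {a : ℂ × ℂ → ℂ} {t : ℂ} (h : AnalyticAt ℂ a (0, t)) {n : ℕ}
    (hn : (Ds^[n] a) (0, t) ≠ 0) : analyticOrderAt (fun s => a (s, t)) 0 ≤ n := by
  by_contra hcon
  push Not at hcon
  have h1 : ((n + 1 : ℕ) : ℕ∞) ≤ analyticOrderAt (fun s => a (s, t)) 0 := by
    push_cast
    exact Order.add_one_le_of_lt hcon
  rw [natCast_le_analyticOrderAt_iff_iteratedDeriv_eq_zero (slice_analytic h)] at h1
  have h2 := h1 n (Nat.lt_succ_self n)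
  rw [iter_slice n h] at h2
  exact hn h2

theorem exists_ne_of_order {a : ℂ × ℂ → ℂ} {t : ℂ} (h : AnalyticAt ℂ a (0, t))
    (hfin : analyticOrderAt (fun s => a (s, t)) 0 ≠ ⊤) : ∃ n : ℕ, (Ds^[n] a) (0, t) ≠ 0 := by
  obtain ⟨m, hm⟩ := ENat.ne_top_iff_exists.mp hfin
  by_contra hcon
  push Not at hcon
  have h1 : ((m + 1 : ℕ) : ℕ∞) ≤ analyticOrderAt (fun s => a (s, t)) 0 := by
    rw [natCast_le_analyticOrderAt_iff_iteratedDeriv_eq_zero (slice_analytic h)]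
    intro i _
    rw [iter_slice i h]
    exact hcon i
  rw [← hm] at h1
  have h2 : m + 1 ≤ m := by exact_mod_cast h1
  omega

/-- a function without zeros in a punctured neighbourhood has finite order -/
theorem order_ne_top {f : ℂ → ℂ} {r : ℝ} (hr : 0 < r)
    (h : ∀ s, s ≠ 0 → ‖s‖ < r → f s ≠ 0) : analyticOrderAt f 0 ≠ ⊤ := by
  intro h1
  rw [analyticOrderAt_eq_top] at h1
  have h2 : ∀ᶠ s in 𝓝[≠] (0 : ℂ), f s = 0 := h1.filter_mono nhdsWithin_le_nhds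
  have h3 : ∀ᶠ s in 𝓝[≠] (0 : ℂ), f s ≠ 0 := by
    filter_upwards [self_mem_nhdsWithin, mem_nhdsWithin_of_mem_nhds (ball_mem_nhds (0 : ℂ) hr)]
      with s hs hs'
    rw [mem_ball_zero_iff] at hs'
    exact h s hs hs'
  obtain ⟨s, h4, h5⟩ := (h2.and h3).exists
  exact h5 h4

/-- The orders of the slices are bounded on compact sets of parameters. -/
theorem order_bound {a : ℂ × ℂ → ℂ} {T : Set ℂ} (hT : IsCompact T)
    (ha : ∀ t ∈ T, AnalyticAt ℂ a (0, t))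
    (hfin : ∀ t ∈ T, analyticOrderAt (fun s => a (s, t)) 0 ≠ ⊤) :
    ∃ n : ℕ, ∀ t ∈ T, analyticOrderAt (fun s => a (s, t)) 0 ≤ n := by
  have h1 : ∀ t ∈ T, ∃ n : ℕ, (Ds^[n] a) (0, t) ≠ 0 := fun t ht =>
    exists_ne_of_order (ha t ht) (hfin t ht)
  choose! n hn using h1
  have hU : ∀ t ∈ T, {t' | AnalyticAt ℂ a (0, t') ∧ (Ds^[n t] a) (0, t') ≠ 0} ∈ 𝓝 t := by
    intro t ht
    have hc : ContinuousAt (fun t' : ℂ => ((0 : ℂ), t')) t :=
      (Continuous.prodMk continuous_const continuous_id).continuousAt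
    have h2 : ∀ᶠ t' in 𝓝 t, AnalyticAt ℂ a (0, t') :=
      hc.eventually (ha t ht).eventually_analyticAt
    have h3 : ∀ᶠ t' in 𝓝 t, (Ds^[n t] a) (0, t') ≠ 0 :=
      hc.eventually ((iter_analytic (ha t ht) (n t)).continuousAt.eventually_ne (hn t ht))
    exact h2.and h3
  obtain ⟨F, hF, hcov⟩ := hT.elim_nhds_subcover _ hU
  refine ⟨F.sup n, fun t ht => ?_⟩
  have h2 := hcov ht
  rw [Set.mem_iUnion₂] at h2
  obtain ⟨t', ht', h3, h4⟩ := h2
  refine (order_le_of_ne h3 h4).trans ?_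
  exact_mod_cast Finset.le_sup ht'

/-- A positive lower bound on a compact set. -/
theorem exists_lower {X : Type*} [TopologicalSpace X] {K : Set X} (hK : IsCompact K) {f : X → ℂ}
    (hf : ∀ x ∈ K, ContinuousAt f x) (h0 : ∀ x ∈ K, f x ≠ 0) :
    ∃ c : ℝ, 0 < c ∧ ∀ x ∈ K, c ≤ ‖f x‖ := by
  rcases K.eq_empty_or_nonempty with h | h
  · exact ⟨1, one_pos, fun x hx => by rw [h] at hx; exact hx.elim⟩
  · obtain ⟨x, hx, hmin⟩ := hK.exists_isMinOn h
      (fun x hx => (hf x hx).norm.continuousWithinAt)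
    exact ⟨‖f x‖, norm_pos_iff.mpr (h0 x hx), fun y hy => hmin hy⟩

/-- The lower bound for the slices with parameters in a compact set. -/
theorem lower_param {a : ℂ × ℂ → ℂ} {T : Set ℂ} (hT : IsCompact T)
    (ha : ∀ s t, ‖s‖ ≤ 1 → t ∈ T → AnalyticAt ℂ a (s, t))
    (h0 : ∀ s t, ‖s‖ ≤ 1 → t ∈ T → s ≠ 0 → a (s, t) ≠ 0) :
    ∃ (c : ℝ) (k : ℕ), 0 < c ∧ ∀ s t, ‖s‖ ≤ 1 → t ∈ T → c * ‖s‖ ^ k ≤ ‖a (s, t)‖ := by
  have h01 : ‖(0 : ℂ)‖ ≤ 1 := by rw [norm_zero]; exact zero_le_one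
  obtain ⟨k, hk⟩ := order_bound hT (fun t ht => ha 0 t h01 ht)
    (fun t ht => order_ne_top one_pos fun s hs hs' => h0 s t hs'.le ht hs)
  obtain ⟨c, hc, hcK⟩ := exists_lower (f := a) ((isCompact_sphere (0 : ℂ) 1).prod hT)
    (by
      rintro ⟨s, t⟩ ⟨hs, ht⟩
      have hs' : ‖s‖ = 1 := by simpa using hs
      exact (ha s t hs'.le ht).continuousAt)
    (by
      rintro ⟨s, t⟩ ⟨hs, ht⟩
      have hs' : ‖s‖ = 1 := by simpa using hs
      have hs0 : s ≠ 0 := by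
        rintro rfl
        rw [norm_zero] at hs'
        exact zero_ne_one hs'
      exact h0 s t hs'.le ht hs0)
  refine ⟨c, k, hc, fun s t hs ht => ?_⟩
  exact min_mod (f := fun s => a (s, t)) hc (fun z hz => slice_analytic (ha z t hz ht))
    (fun z hz hz0 => h0 z t hz ht hz0)
    (fun z hz => hcK (z, t) ⟨by simpa using hz, ht⟩) (hk t ht) hs

/-- Zeros on one axis. -/
theorem lower_smooth {a : ℂ × ℂ → ℂ} (ha : ∀ s t, ‖s‖ ≤ 1 → ‖t‖ ≤ 1 → AnalyticAt ℂ a (s, t))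
    (h0 : ∀ s t, ‖s‖ ≤ 1 → ‖t‖ ≤ 1 → s ≠ 0 → a (s, t) ≠ 0) :
    ∃ (c : ℝ) (k : ℕ), 0 < c ∧ ∀ s t, ‖s‖ ≤ 1 → ‖t‖ ≤ 1 → c * ‖s‖ ^ k ≤ ‖a (s, t)‖ := by
  obtain ⟨c, k, hc, h⟩ := lower_param (isCompact_closedBall (0 : ℂ) 1)
    (fun s t hs ht => ha s t hs (by simpa using ht))
    (fun s t hs ht hs0 => h0 s t hs (by simpa using ht) hs0)
  exact ⟨c, k, hc, fun s t hs ht => h s t hs (by simpa using ht)⟩

theorem swap_analytic {a : ℂ × ℂ → ℂ} {s t : ℂ} (h : AnalyticAt ℂ a (s, t)) :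
    AnalyticAt ℂ (fun p : ℂ × ℂ => a (p.2, p.1)) (t, s) :=
  AnalyticAt.fun_comp (g := a) (f := fun p : ℂ × ℂ => (p.2, p.1)) h (analyticAt_snd.prod analyticAt_fst)

/-- The order at the origin from a lower bound. -/
theorem order_le_of_lower {f : ℂ → ℂ} (hf : AnalyticAt ℂ f 0) {c : ℝ} (hc : 0 < c) {k : ℕ}
    (h : ∀ᶠ s in 𝓝[≠] (0 : ℂ), c * ‖s‖ ^ k ≤ ‖f s‖) : analyticOrderAt f 0 ≤ k := by
  by_contra hcon
  push Not at hcon
  have h1 : ((k + 1 : ℕ) : ℕ∞) ≤ analyticOrderAt f 0 := by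
    push_cast
    exact Order.add_one_le_of_lt hcon
  obtain ⟨g, hg, hfg⟩ := (natCast_le_analyticOrderAt hf).mp h1
  have h2 : ∀ᶠ s in 𝓝[≠] (0 : ℂ), c ≤ ‖s * g s‖ := by
    filter_upwards [h, hfg.filter_mono nhdsWithin_le_nhds, self_mem_nhdsWithin] with s h3 h4 h5
    have h6 : 0 < ‖s‖ ^ k := pow_pos (norm_pos_iff.mpr h5) k
    rw [h4, sub_zero, smul_eq_mul, pow_succ, mul_assoc, norm_mul, norm_pow, mul_comm c] at h3
    exact le_of_mul_le_mul_left h3 h6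
  have h3 : Tendsto (fun s => ‖s * g s‖) (𝓝[≠] (0 : ℂ)) (𝓝 ‖(0 : ℂ) * g 0‖) :=
    ((continuousAt_id.mul hg.continuousAt).norm).tendsto.mono_left nhdsWithin_le_nhds
  have h4 := ge_of_tendsto h3 h2
  rw [zero_mul, norm_zero] at h4
  linarith

/-- The orders of the slices off a node are bounded. -/
theorem order_node {a : ℂ × ℂ → ℂ} (ha : ∀ s t, ‖s‖ < 2 → ‖t‖ < 2 → AnalyticAt ℂ a (s, t))
    (h0 : ∀ s t, ‖s‖ < 2 → ‖t‖ < 2 → s ≠ 0 → t ≠ 0 → a (s, t) ≠ 0) :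
    ∃ k : ℕ, ∀ t, t ≠ 0 → ‖t‖ < 2 → analyticOrderAt (fun s => a (s, t)) 0 ≤ k := by
  have h02 : ‖(0 : ℂ)‖ < 2 := by rw [norm_zero]; exact two_pos
  have h12 : ‖(1 : ℂ)‖ < 2 := by rw [norm_one]; exact one_lt_two
  obtain ⟨k, hk⟩ := exists_ne_of_order (ha 0 1 h02 h12)
    (order_ne_top two_pos fun s hs hs' => h0 s 1 hs' h12 hs one_ne_zero)
  refine ⟨k, fun t₀ ht₀ ht₀2 => ?_⟩
  -- the derivative of order `k` has isolated zeros
  have hD : AnalyticOnNhd ℂ (fun t => (Ds^[k] a) (0, t)) (ball 0 2) := by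
    intro t ht
    rw [mem_ball_zero_iff] at ht
    exact AnalyticAt.fun_comp (g := Ds^[k] a) (f := fun t' => ((0 : ℂ), t'))
      (iter_analytic (ha 0 t h02 ht) k) (analyticAt_const.prod analyticAt_id)
  have hDne : ∀ᶠ t in 𝓝[≠] t₀, (Ds^[k] a) (0, t) ≠ 0 := by
    rcases hD.eqOn_zero_or_eventually_ne_zero_of_preconnected (convex_ball 0 2).isPreconnected
      with h1 | h1
    · exfalso
      exact hk (h1 (by rw [mem_ball_zero_iff]; exact h12))
    · rw [Filter.eventually_iff, mem_codiscreteWithin] at h1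
      have h2 := h1 t₀ (by rw [mem_ball_zero_iff]; exact ht₀2)
      have h3 : ball (0 : ℂ) 2 ∈ 𝓝[≠] t₀ := mem_nhdsWithin_of_mem_nhds
        (isOpen_ball.mem_nhds (by rw [mem_ball_zero_iff]; exact ht₀2))
      rw [disjoint_principal_right] at h2
      filter_upwards [h2, h3] with t h4 h5
      by_contra h6
      exact h4 ⟨h5, fun h7 => h7 h6⟩
  -- a small circle around `t₀`
  obtain ⟨r, hr, hr1, hr2, hr3⟩ : ∃ r : ℝ, 0 < r ∧ (∀ t, ‖t - t₀‖ ≤ r → ‖t‖ < 2) ∧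
      (∀ t, ‖t - t₀‖ ≤ r → t ≠ 0) ∧ ∀ t, ‖t - t₀‖ = r → (Ds^[k] a) (0, t) ≠ 0 := by
    have h1 : ∀ᶠ t in 𝓝 t₀, ‖t‖ < 2 ∧ t ≠ 0 ∧ (t ≠ t₀ → (Ds^[k] a) (0, t) ≠ 0) := by
      have h2 : ∀ᶠ t in 𝓝 t₀, t ≠ 0 :=
        isOpen_compl_singleton.mem_nhds (show t₀ ∈ ({0}ᶜ : Set ℂ) from ht₀)
      exact (continuous_norm.continuousAt.eventually_lt continuousAt_const ht₀2).and
        (h2.and (eventually_nhdsWithin_iff.mp hDne))
    obtain ⟨ε, hε, hball⟩ := Metric.eventually_nhds_iff.mp h1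
    have h2 : ∀ t, ‖t - t₀‖ ≤ ε / 2 → dist t t₀ < ε := by
      intro t ht
      rw [dist_eq_norm]
      linarith
    refine ⟨ε / 2, half_pos hε, fun t ht => (hball (h2 t ht)).1, fun t ht => (hball (h2 t ht)).2.1,
      fun t ht => (hball (h2 t ht.le)).2.2 ?_⟩
    rintro rfl
    rw [sub_self, norm_zero] at ht
    linarith
  have hcirc : IsCompact {t : ℂ | ‖t - t₀‖ = r} := by
    have h1 : {t : ℂ | ‖t - t₀‖ = r} = sphere t₀ r := by
      ext t
      rw [mem_sphere, dist_eq_norm]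
      rfl
    rw [h1]
    exact isCompact_sphere t₀ r
  obtain ⟨c, hc, hcK⟩ := exists_lower (f := a) ((isCompact_sphere (0 : ℂ) 1).prod hcirc)
    (by
      rintro ⟨s, t⟩ ⟨hs, ht⟩
      have hs' : ‖s‖ = 1 := by simpa using hs
      exact (ha s t (by rw [hs']; exact one_lt_two) (hr1 t (le_of_eq ht))).continuousAt)
    (by
      rintro ⟨s, t⟩ ⟨hs, ht⟩
      have hs' : ‖s‖ = 1 := by simpa using hs
      have hs0 : s ≠ 0 := by
        rintro rfl
        rw [norm_zero] at hs'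
        exact zero_ne_one hs'
      exact h0 s t (by rw [hs']; exact one_lt_two) (hr1 t (le_of_eq ht)) hs0 (hr2 t (le_of_eq ht)))
  have hlt : ∀ s : ℂ, ‖s‖ ≤ 1 → ‖s‖ < 2 := fun s hs => hs.trans_lt one_lt_two
  -- on the circle
  have h1 : ∀ s t, ‖s‖ ≤ 1 → ‖t - t₀‖ = r → c * ‖s‖ ^ k ≤ ‖a (s, t)‖ := by
    intro s t hs ht
    exact min_mod (f := fun s => a (s, t)) hc
      (fun z hz => slice_analytic (ha z t (hlt z hz) (hr1 t ht.le)))
      (fun z hz hz0 => h0 z t (hlt z hz) (hr1 t ht.le) hz0 (hr2 t ht.le))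
      (fun z hz => hcK (z, t) ⟨by simpa using hz, ht⟩)
      (order_le_of_ne (ha 0 t h02 (hr1 t ht.le)) (hr3 t ht)) hs
  -- at the centre
  have h2 : ∀ s, ‖s‖ ≤ 1 → s ≠ 0 → c * ‖s‖ ^ k ≤ ‖a (s, t₀)‖ := by
    intro s hs hs0
    refine min_principle (f := fun t => a (s, t)) (z₀ := t₀) hr
      (mul_pos hc (pow_pos (norm_pos_iff.mpr hs0) k)) (fun t ht => ?_)
      (fun t ht => h0 s t (hlt s hs) (hr1 t ht) hs0 (hr2 t ht)) (fun t ht => h1 s t hs ht) ?_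
    · exact AnalyticAt.fun_comp (g := a) (f := fun t' => (s, t')) (ha s t (hlt s hs) (hr1 t ht))
        (analyticAt_const.prod analyticAt_id)
    · rw [sub_self, norm_zero]
      exact hr.le
  refine order_le_of_lower (slice_analytic (ha 0 t₀ h02 ht₀2)) hc ?_
  filter_upwards [self_mem_nhdsWithin, mem_nhdsWithin_of_mem_nhds (ball_mem_nhds (0 : ℂ) one_pos)]
    with s hs hs'
  rw [mem_ball_zero_iff] at hs'
  exact h2 s hs'.le hs

/-- Zeros on two axes. -/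
theorem lower_node {a : ℂ × ℂ → ℂ} (ha : ∀ s t, ‖s‖ < 2 → ‖t‖ < 2 → AnalyticAt ℂ a (s, t))
    (h0 : ∀ s t, ‖s‖ < 2 → ‖t‖ < 2 → s ≠ 0 → t ≠ 0 → a (s, t) ≠ 0) :
    ∃ (c : ℝ) (k : ℕ), 0 < c ∧ 1 ≤ k ∧ ∀ s t, ‖s‖ ≤ 1 → ‖t‖ ≤ 1 →
      c * (‖s‖ * ‖t‖) ^ k ≤ ‖a (s, t)‖ := by
  have hlt : ∀ s : ℂ, ‖s‖ ≤ 1 → ‖s‖ < 2 := fun s hs => hs.trans_lt one_lt_two
  obtain ⟨k, hk⟩ := order_node ha h0
  have hsph : ∀ s : ℂ, s ∈ sphere (0 : ℂ) 1 → ‖s‖ = 1 := fun s hs => by simpa using hs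
  have hne : ∀ s : ℂ, ‖s‖ = 1 → s ≠ 0 := by
    rintro s hs rfl
    rw [norm_zero] at hs
    exact zero_ne_one hs
  obtain ⟨c, l, hc, hl⟩ := lower_param (a := fun p : ℂ × ℂ => a (p.2, p.1))
    (isCompact_sphere (0 : ℂ) 1)
    (fun t s ht hs => swap_analytic (ha s t (hlt s (hsph s hs).le) (hlt t ht)))
    (fun t s ht hs ht0 => h0 s t (hlt s (hsph s hs).le) (hlt t ht) (hne s (hsph s hs)) ht0)
  refine ⟨c, max k l + 1, hc, Nat.le_add_left _ _, fun s t hs ht => ?_⟩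
  by_cases hs0 : s = 0
  · rw [hs0, norm_zero, zero_mul, zero_pow (Nat.succ_ne_zero _), mul_zero]
    exact norm_nonneg _
  by_cases ht0 : t = 0
  · rw [ht0, norm_zero, mul_zero, zero_pow (Nat.succ_ne_zero _), mul_zero]
    exact norm_nonneg _
  have h1 : c * ‖t‖ ^ l * ‖s‖ ^ k ≤ ‖a (s, t)‖ :=
    min_mod (f := fun s => a (s, t)) (mul_pos hc (pow_pos (norm_pos_iff.mpr ht0) l))
      (fun z hz => slice_analytic (ha z t (hlt z hz) (hlt t ht)))
      (fun z hz hz0 => h0 z t (hlt z hz) (hlt t ht) hz0 ht0)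
      (fun z hz => hl t z ht (by simpa using hz)) (hk t ht0 (hlt t ht)) hs
  refine le_trans ?_ h1
  rw [mul_pow, mul_assoc, mul_comm (‖t‖ ^ l)]
  refine mul_le_mul_of_nonneg_left (mul_le_mul ?_ ?_ (by positivity) (by positivity)) hc.le
  · exact pow_le_pow_of_le_one (norm_nonneg s) hs (by omega)
  · exact pow_le_pow_of_le_one (norm_nonneg t) ht (by omega)

/-! ### Upper bounds -/

/-- Schwarz' lemma. -/
theorem schwarz {f : ℂ → ℂ} {C : ℝ} (hf : ∀ z, ‖z‖ ≤ 1 → AnalyticAt ℂ f z) (h0 : f 0 = 0)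
    (h1 : ∀ z, ‖z‖ = 1 → ‖f z‖ ≤ C) {z : ℂ} (hz : ‖z‖ ≤ 1) : ‖f z‖ ≤ C * ‖z‖ := by
  classical
  have hfa := hf 0 (by rw [norm_zero]; exact zero_le_one)
  have hG : ∀ w, ‖w‖ ≤ 1 → AnalyticAt ℂ (dslope f 0) w := by
    intro w hw
    by_cases h2 : w = 0
    · rw [h2]
      exact (Complex.analyticAt_iff_eventually_differentiableAt.mpr (by
        filter_upwards [hfa.eventually_analyticAt] with x hx
        by_cases hx0 : x = 0
        · rw [hx0]
          obtain ⟨p, hp⟩ := hfa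
          exact hp.has_fpower_series_dslope_fslope.analyticAt.differentiableAt
        · exact (differentiableAt_dslope_of_ne hx0).mpr hx.differentiableAt))
    · exact (Complex.analyticAt_iff_eventually_differentiableAt.mpr (by
        filter_upwards [(hf w hw).eventually_analyticAt,
          isOpen_compl_singleton.mem_nhds (show w ∈ ({0}ᶜ : Set ℂ) from h2)] with x hx hx0
        exact (differentiableAt_dslope_of_ne hx0).mpr hx.differentiableAt))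
  have hfG : ∀ w, f w = w * dslope f 0 w := by
    intro w
    have h2 := sub_smul_dslope f 0 w
    rw [sub_zero, smul_eq_mul, h0, sub_zero] at h2
    exact h2.symm
  have hcl : closure (ball (0 : ℂ) 1) = closedBall 0 1 := closure_ball 0 one_ne_zero
  have hfr : frontier (ball (0 : ℂ) 1) = sphere 0 1 := frontier_ball 0 one_ne_zero
  have hd : DiffContOnCl ℂ (dslope f 0) (ball 0 1) := by
    apply DifferentiableOn.diffContOnCl
    rw [hcl]
    intro w hw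
    exact (hG w (by simpa using hw)).differentiableAt.differentiableWithinAt
  have h2 := Complex.norm_le_of_forall_mem_frontier_norm_le (C := C) isBounded_ball hd
    (by
      intro w hw
      rw [hfr, mem_sphere_zero_iff_norm] at hw
      have h3 := h1 w hw
      rw [hfG w, norm_mul, hw, one_mul] at h3
      exact h3) (z := z) (by rw [hcl]; simpa using hz)
  rw [hfG z, norm_mul, mul_comm C]
  exact mul_le_mul_of_nonneg_left h2 (norm_nonneg z)

/-- An upper bound on a compact set. -/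
theorem exists_upper {X : Type*} [TopologicalSpace X] {K : Set X} (hK : IsCompact K) {f : X → ℂ}
    (hf : ∀ x ∈ K, ContinuousAt f x) : ∃ C : ℝ, 0 < C ∧ ∀ x ∈ K, ‖f x‖ ≤ C := by
  obtain ⟨C, hC⟩ := hK.exists_bound_of_continuousOn
    (fun x hx => (hf x hx).continuousWithinAt)
  exact ⟨max C 1, lt_max_of_lt_right one_pos, fun x hx => (hC x hx).trans (le_max_left _ _)⟩

/-- Functions vanishing on one axis. -/
theorem upper_smooth {a : ℂ × ℂ → ℂ} (ha : ∀ s t, ‖s‖ ≤ 1 → ‖t‖ ≤ 1 → AnalyticAt ℂ a (s, t))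
    (h0 : ∀ t, ‖t‖ ≤ 1 → a (0, t) = 0) :
    ∃ C : ℝ, 0 < C ∧ ∀ s t, ‖s‖ ≤ 1 → ‖t‖ ≤ 1 → ‖a (s, t)‖ ≤ C * ‖s‖ := by
  obtain ⟨C, hC, h⟩ := exists_upper (f := a)
    ((isCompact_closedBall (0 : ℂ) 1).prod (isCompact_closedBall (0 : ℂ) 1))
    (by
      rintro ⟨s, t⟩ ⟨hs, ht⟩
      exact (ha s t (by simpa using hs) (by simpa using ht)).continuousAt)
  refine ⟨C, hC, fun s t hs ht => ?_⟩
  exact schwarz (f := fun s => a (s, t)) (fun z hz => slice_analytic (ha z t hz ht)) (h0 t ht)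
    (fun z hz => h (z, t) ⟨by simpa using hz.le, by simpa using ht⟩) hs

/-- Functions vanishing on two axes. -/
theorem upper_node {a : ℂ × ℂ → ℂ} (ha : ∀ s t, ‖s‖ ≤ 1 → ‖t‖ ≤ 1 → AnalyticAt ℂ a (s, t))
    (h0 : ∀ t, ‖t‖ ≤ 1 → a (0, t) = 0) (h0' : ∀ s, ‖s‖ ≤ 1 → a (s, 0) = 0) :
    ∃ C : ℝ, 0 < C ∧ ∀ s t, ‖s‖ ≤ 1 → ‖t‖ ≤ 1 → ‖a (s, t)‖ ≤ C * (‖s‖ * ‖t‖) := by
  obtain ⟨C, hC, h⟩ := upper_smooth ha h0
  refine ⟨C, hC, fun s t hs ht => ?_⟩
  have h1 := schwarz (f := fun t => a (s, t)) (C := C * ‖s‖)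
    (fun z hz => AnalyticAt.fun_comp (g := a) (f := fun t' => (s, t')) (ha s z hs hz)
      (analyticAt_const.prod analyticAt_id)) (h0' s hs) (fun z hz => h s z hs hz.le) ht
  rwa [mul_assoc] at h1

end Pool.Agent.H62.BP
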